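import Pool.Agent.V11251.VF.Facts

set_option autoImplicit false
set_option linter.unusedVariables false
set_option linter.unusedSectionVars false

universe u

namespace Pool.Agent.Results.MP_65f174_lc.FragmentsFail

open Pool.Agent.V11251.VF

/-! ### Prenex sentences of the ring language -/

/-- Terms of the ring language with `n` variables. -/
inductive RTm (n : ℕ) : Type
  | var (i : Fin n) | zero | one | add (s t : RTm n) | neg (s : RTm n) | mul (s t : RTm n)

/-- Quantifier-free formulas of the ring language. -/
inductive RQF (n : ℕ) : Type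
  | eq (s t : RTm n) | not (φ : RQF n) | and (φ ψ : RQF n) | or (φ ψ : RQF n)

/-- Prenex formulas of the ring language; a quantifier binds the new variable `0`. -/
inductive RPre : ℕ → Type
  | qf {n : ℕ} (φ : RQF n) : RPre n
  | ex {n : ℕ} (φ : RPre (n + 1)) : RPre n
  | all {n : ℕ} (φ : RPre (n + 1)) : RPre n

section
variable {k : Type u} [CommRing k]

def RTm.eval {n : ℕ} (e : Fin n → k) : RTm n → k
  | .var i => e i
  | .zero => 0
  | .one => 1
  | .add s t => s.eval e + t.eval e
  | .neg s => - s.eval e
  | .mul s t => s.eval e * t.eval e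

def RQF.Realize {n : ℕ} (e : Fin n → k) : RQF n → Prop
  | .eq s t => s.eval e = t.eval e
  | .not φ => ¬ φ.Realize e
  | .and φ ψ => φ.Realize e ∧ ψ.Realize e
  | .or φ ψ => φ.Realize e ∨ ψ.Realize e

def RPre.Realize : {n : ℕ} → RPre n → (Fin n → k) → Prop
  | _, .qf φ, e => φ.Realize e
  | _, .ex φ, e => ∃ x : k, φ.Realize (Fin.cons x e)
  | _, .all φ, e => ∀ x : k, φ.Realize (Fin.cons x e)
end

/-- The list of quantifiers (`true` is `∃`, `false` is `∀`). -/
def RPre.quants : {n : ℕ} → RPre n → List Bool
  | _, .qf _ => []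
  | _, .ex φ => true :: φ.quants
  | _, .all φ => false :: φ.quants

/-- `InFragment n l`: the list `l` of quantifiers consists of `n` alternating blocks (possibly empty), the last
one existential; so the first of the `n` blocks is existential exactly if `n` is odd. -/
def InFragment : ℕ → List Bool → Prop
  | 0, l => l = []
  | n + 1, l => ∃ l₁ l₂ : List Bool, l = l₁ ++ l₂ ∧ (∀ q ∈ l₁, q = decide ((n + 1) % 2 = 1)) ∧
      InFragment n l₂

/-- `Th_Φ(k)` for the fragment `Φ` with `n` blocks and a ring `k`. -/
def ringTh (n : ℕ) (k : Type u) [CommRing k] : Set (RPre 0) :=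
  {φ | InFragment n φ.quants ∧ φ.Realize (Fin.elim0 : Fin 0 → k)}

/-! ### Prenex sentences of the three-sorted language of valued fields with a constant `ϖ` -/

/-- Terms of the field sort with `a` field variables. -/
inductive FT (a : ℕ) : Type
  | var (i : Fin a) | zero | one | pi | add (s t : FT a) | neg (s : FT a) | mul (s t : FT a)

/-- Terms of the residue-field sort with `a` field and `b` residue-field variables. -/
inductive RT (a b : ℕ) : Type
  | var (i : Fin b) | zero | one | add (s t : RT a b) | neg (s : RT a b) | mul (s t : RT a b)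
  | res (s : FT a)

/-- Terms of the value-group sort with `a` field and `c` value-group variables. -/
inductive VT (a c : ℕ) : Type
  | var (i : Fin c) | zero | infty | add (s t : VT a c) | neg (s : VT a c) | val (s : FT a)

/-- Quantifier-free formulas. -/
inductive QF (a b c : ℕ) : Type
  | eqF (s t : FT a) | eqR (s t : RT a b) | eqV (s t : VT a c) | lt (s t : VT a c)
  | not (φ : QF a b c) | and (φ ψ : QF a b c) | or (φ ψ : QF a b c)

/-- Prenex formulas; quantifiers range over any of the three sorts and bind the new variable `0` of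
their sort. -/
inductive Pre : ℕ → ℕ → ℕ → Type
  | qf {a b c : ℕ} (φ : QF a b c) : Pre a b c
  | exF {a b c : ℕ} (φ : Pre (a + 1) b c) : Pre a b c
  | exR {a b c : ℕ} (φ : Pre a (b + 1) c) : Pre a b c
  | exV {a b c : ℕ} (φ : Pre a b (c + 1)) : Pre a b c
  | allF {a b c : ℕ} (φ : Pre (a + 1) b c) : Pre a b c
  | allR {a b c : ℕ} (φ : Pre a (b + 1) c) : Pre a b c
  | allV {a b c : ℕ} (φ : Pre a b (c + 1)) : Pre a b c

/-- The list of quantifiers (`true` is `∃`, `false` is `∀`). -/
def Pre.quants : {a b c : ℕ} → Pre a b c → List Bool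
  | _, _, _, .qf _ => []
  | _, _, _, .exF φ => true :: φ.quants
  | _, _, _, .exR φ => true :: φ.quants
  | _, _, _, .exV φ => true :: φ.quants
  | _, _, _, .allF φ => false :: φ.quants
  | _, _, _, .allR φ => false :: φ.quants
  | _, _, _, .allV φ => false :: φ.quants

section
variable {K : Type u} [Field K] (O : ValuationSubring K) (π : K)

def FT.eval {a : ℕ} (x : Fin a → K) : FT a → K
  | .var i => x i
  | .zero => 0
  | .one => 1
  | .pi => π
  | .add s t => s.eval x + t.eval x
  | .neg s => - s.eval x
  | .mul s t => s.eval x * t.eval x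

/-- The residue map, extended by `0` outside the valuation ring. -/
noncomputable def resMap (x : K) : IsLocalRing.ResidueField O :=
  open Classical in if h : x ∈ O then IsLocalRing.residue O ⟨x, h⟩ else 0

noncomputable def RT.eval {a b : ℕ} (x : Fin a → K) (y : Fin b → IsLocalRing.ResidueField O) :
    RT a b → IsLocalRing.ResidueField O
  | .var i => y i
  | .zero => 0
  | .one => 1
  | .add s t => s.eval x y + t.eval x y
  | .neg s => - s.eval x y
  | .mul s t => s.eval x y * t.eval x y
  | .res s => resMap O (s.eval π x)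

/-- The value-group sort is interpreted in Mathlib's value group with zero of the valuation ring,
which is the value group written multiplicatively with the reversed order and with `∞` written
as `0`: so `+` is the product, `0` is `1`, `∞` is `0`, `-` is the inverse. -/
noncomputable def VT.eval {a c : ℕ} (x : Fin a → K) (z : Fin c → O.ValueGroup) :
    VT a c → O.ValueGroup
  | .var i => z i
  | .zero => 1
  | .infty => 0
  | .add s t => s.eval x z * t.eval x z
  | .neg s => (s.eval x z)⁻¹
  | .val s => O.valuation (s.eval π x)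

def QF.Realize {a b c : ℕ} (x : Fin a → K) (y : Fin b → IsLocalRing.ResidueField O)
    (z : Fin c → O.ValueGroup) : QF a b c → Prop
  | .eqF s t => s.eval π x = t.eval π x
  | .eqR s t => s.eval O π x y = t.eval O π x y
  | .eqV s t => s.eval O π x z = t.eval O π x z
  | .lt s t => t.eval O π x z < s.eval O π x z
  | .not φ => ¬ φ.Realize x y z
  | .and φ ψ => φ.Realize x y z ∧ ψ.Realize x y z
  | .or φ ψ => φ.Realize x y z ∨ ψ.Realize x y z

def Pre.Realize : {a b c : ℕ} → Pre a b c → (Fin a → K) → (Fin b → IsLocalRing.ResidueField O) →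
    (Fin c → O.ValueGroup) → Prop
  | _, _, _, .qf φ, x, y, z => φ.Realize O π x y z
  | _, _, _, .exF φ, x, y, z => ∃ w : K, φ.Realize (Fin.cons w x) y z
  | _, _, _, .exR φ, x, y, z => ∃ w : IsLocalRing.ResidueField O, φ.Realize x (Fin.cons w y) z
  | _, _, _, .exV φ, x, y, z => ∃ w : O.ValueGroup, φ.Realize x y (Fin.cons w z)
  | _, _, _, .allF φ, x, y, z => ∀ w : K, φ.Realize (Fin.cons w x) y z
  | _, _, _, .allR φ, x, y, z => ∀ w : IsLocalRing.ResidueField O, φ.Realize x (Fin.cons w y) z
  | _, _, _, .allV φ, x, y, z => ∀ w : O.ValueGroup, φ.Realize x y (Fin.cons w z)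

/-- `Th_Φ(K, v, π)` for the fragment `Φ` with `n` blocks. -/
def valTh (n : ℕ) : Set (Pre 0 0 0) :=
  {φ | InFragment n φ.quants ∧ φ.Realize O π Fin.elim0 Fin.elim0 Fin.elim0}
end

/-! ### proofs -/

section iso

variable {k l : Type u} [CommRing k] [CommRing l] (e : k ≃+* l)

theorem tm_iso {n : ℕ} (v : Fin n → k) (t : RTm n) : t.eval (e ∘ v) = e (t.eval v) := by
  induction t with
  | var i => rfl
  | zero => simp [RTm.eval]
  | one => simp [RTm.eval]
  | add s t hs ht => simp only [RTm.eval, hs, ht, map_add]
  | neg s hs => simp only [RTm.eval, hs, map_neg]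
  | mul s t hs ht => simp only [RTm.eval, hs, ht, map_mul]

theorem qf_iso {n : ℕ} (v : Fin n → k) (φ : RQF n) : φ.Realize (e ∘ v) ↔ φ.Realize v := by
  induction φ with
  | eq s t => simp only [RQF.Realize, tm_iso, e.injective.eq_iff]
  | not φ h => simp only [RQF.Realize, h]
  | and φ ψ h h' => simp only [RQF.Realize, h, h']
  | or φ ψ h h' => simp only [RQF.Realize, h, h']

theorem cons_comp {n : ℕ} (v : Fin n → k) (x : k) :
    (Fin.cons (e x) (e ∘ v) : Fin (n + 1) → l) = e ∘ (Fin.cons x v : Fin (n + 1) → k) := by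
  funext i
  refine Fin.cases ?_ (fun j => ?_) i
  · rfl
  · rfl

theorem pre_iso {n : ℕ} (φ : RPre n) (v : Fin n → k) : φ.Realize (e ∘ v) ↔ φ.Realize v := by
  induction φ with
  | qf φ => exact qf_iso e v φ
  | ex φ h =>
    simp only [RPre.Realize]
    refine (e.surjective.exists).trans (exists_congr fun x => ?_)
    rw [cons_comp, h]
  | all φ h =>
    simp only [RPre.Realize]
    refine (e.surjective.forall).trans (forall_congr' fun x => ?_)
    rw [cons_comp, h]

include e in
theorem ringTh_iso (n : ℕ) : ringTh n k = ringTh n l := by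
  ext φ
  unfold ringTh
  simp only [Set.mem_setOf_eq]
  rw [← pre_iso e φ Fin.elim0]
  have : (e ∘ (Fin.elim0 : Fin 0 → k)) = Fin.elim0 := by
    funext i; exact i.elim0
  rw [this]

end iso

theorem inFragment_succ (n : ℕ) (l : List Bool) (h : InFragment n l) : InFragment (n + 1) l :=
  ⟨[], l, rfl, by simp, h⟩

theorem inFragment_mono {m n : ℕ} (hmn : m ≤ n) (l : List Bool) (h : InFragment m l) :
    InFragment n l := by
  induction n, hmn using Nat.le_induction with
  | base => exact h
  | succ n _ ih => exact inFragment_succ n l ih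

/-- `∃ γ ∀ δ (2δ ≠ γ ∧ 2δ ≠ γ + v(ϖ))` -/
def sen : Pre 0 0 0 :=
  .exV (.allV (.qf (.and
    (.not (.eqV (.add (.var 0) (.var 0)) (.var 1)))
    (.not (.eqV (.add (.var 0) (.var 0)) (.add (.var 1) (.val .pi)))))))

theorem sen_fragment {n : ℕ} (hn : 3 ≤ n) : InFragment n sen.quants := by
  apply inFragment_mono hn
  refine ⟨[true], [false], rfl, by simp, [false], [], rfl, by simp, [], [], rfl, by simp, rfl⟩

theorem sen_iff {K : Type u} [Field K] (O : ValuationSubring K) (π : K) :
    sen.Realize O π Fin.elim0 Fin.elim0 Fin.elim0 ↔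
      ∃ γ : O.ValueGroup, ∀ δ : O.ValueGroup, δ * δ ≠ γ ∧ δ * δ ≠ γ * O.valuation π := Iff.rfl

/-- The infinite cyclic group from a generator smaller than `1`. -/
theorem int_iso {Γ : Type u} [LinearOrderedCommGroupWithZero Γ] (g : Γ) (h0 : g ≠ 0) (h1 : g < 1)
    (h : ∀ x : Γ, x ≠ 0 → ∃ n : ℤ, x = g ^ n) : Nonempty (Multiplicative ℤ ≃*o Γˣ) := by
  set u : Γˣ := (Units.mk0 g h0)⁻¹ with hu
  have hu1 : 1 < u := by
    rw [hu, Left.one_lt_inv_iff]
    exact h1
  let f : Multiplicative ℤ →* Γˣ := zpowersHom Γˣ u
  have hf : ∀ n : ℤ, f (Multiplicative.ofAdd n) = u ^ n := fun n => by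
    simp [f, zpowersHom_apply]
  have hmono : StrictMono f := by
    intro a b hab
    have ha := hf (Multiplicative.toAdd a)
    have hb := hf (Multiplicative.toAdd b)
    rw [ofAdd_toAdd] at ha hb
    rw [ha, hb]
    exact zpow_right_strictMono hu1 hab
  have hsurj : Function.Surjective f := by
    intro y
    obtain ⟨n, hn⟩ := h (y : Γ) y.ne_zero
    refine ⟨Multiplicative.ofAdd (-n), ?_⟩
    rw [hf]
    apply Units.ext
    rw [hn, hu]
    simp
  exact ⟨{ MulEquiv.ofBijective f ⟨hmono.injective, hsurj⟩ with
    map_le_map_iff' := hmono.le_iff_le }⟩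

/-- **Main theorem.** For every field `k` of characteristic zero there are valued fields
`(K, O, πK)`, `(L, P, πL)` of characteristic zero with residue fields isomorphic to `k`, henselian
and nontrivially valued with uniformizers, the value group of `L` being isomorphic to `ℤ`, such that
`Th_Φ(Kv) = Th_Φ(Lw)` for every standard fragment `Φ`, while
`Th_Φ(K,v,πK) ⊆ Th_Φ(L,w,πL)` fails for every standard fragment `Φ` with at least three blocks. -/
theorem result (k : Type u) [Field k] [CharZero k] :
    ∃ (K L : Type u) (_ : Field K) (_ : Field L) (O : ValuationSubring K) (P : ValuationSubring L)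
      (πK : K) (πL : L),
      CharZero K ∧ CharZero L ∧ HenselianLocalRing O ∧ HenselianLocalRing P ∧
      IsUniformizer O πK ∧ IsUniformizer P πL ∧
      Nonempty (IsLocalRing.ResidueField O ≃+* k) ∧
      Nonempty (IsLocalRing.ResidueField P ≃+* k) ∧
      Nonempty (Multiplicative ℤ ≃*o P.ValueGroupˣ) ∧
      (∀ n, ringTh n (IsLocalRing.ResidueField O) = ringTh n (IsLocalRing.ResidueField P)) ∧
      ∀ n, 3 ≤ n → ¬ valTh O πK n ⊆ valTh P πL n := by
  let L := LaurentSeries k
  let P : ValuationSubring L := comp (⊤ : ValuationSubring k)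
  let πL : L := HahnSeries.single (1 : ℤ) (1 : k)
  let K := LaurentSeries L
  let O : ValuationSubring K := comp P
  let πK : K := HahnSeries.C πL
  have hP : IsUniformizer P πL := unif_top k
  have hO : IsUniformizer O πK := unif_comp P πL hP
  haveI hPh : HenselianLocalRing P := henselian_comp (⊤ : ValuationSubring k)
  have hOh : HenselianLocalRing O := henselian_comp P
  have sP : Function.Surjective
      (((⊤ : ValuationSubring k).subtype).comp (beta (⊤ : ValuationSubring k))) :=
    (top_surj k).comp (beta_surjective _)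
  have sO : Function.Surjective
      ((((⊤ : ValuationSubring k).subtype).comp (beta (⊤ : ValuationSubring k))).comp (beta P)) :=
    sP.comp (beta_surjective _)
  obtain ⟨eP⟩ := residue_iso _ sP
  obtain ⟨eO⟩ := residue_iso _ sO
  have hv0 : P.valuation πL ≠ 0 := (Valuation.ne_zero_iff _).2 hP.1
  have hgen : ∀ x : P.ValueGroup, x ≠ 0 → ∃ n : ℤ, x = P.valuation πL ^ n := by
    intro x hx
    obtain ⟨y, rfl⟩ := P.valuation_surjective x
    exact ⟨_, value_zpow k y ((Valuation.ne_zero_iff _).1 hx)⟩
  refine ⟨K, L, inferInstance, inferInstance, O, P, πK, πL, ?_, ?_, hOh, hPh, hO, hP, ⟨eO⟩, ⟨eP⟩,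
    int_iso _ hv0 hP.2.1 hgen, fun n => ringTh_iso (eO.trans eP.symm) n, ?_⟩
  · exact charZero_of_injective_ringHom
      (f := (HahnSeries.C : L →+* K).comp (HahnSeries.C : k →+* L))
      (HahnSeries.C_injective.comp HahnSeries.C_injective)
  · exact charZero_of_injective_ringHom (f := (HahnSeries.C : k →+* L)) HahnSeries.C_injective
  · intro n hn hsub
    have h1 : sen ∈ valTh O πK n := by
      refine ⟨sen_fragment hn, (sen_iff O πK).2 ?_⟩
      have hT : (HahnSeries.single (1 : ℤ) (1 : L)) ≠ 0 := HahnSeries.single_ne_zero one_ne_zero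
      refine ⟨O.valuation (HahnSeries.single (1 : ℤ) (1 : L)), ?_⟩
      intro δ
      obtain ⟨x, rfl⟩ := O.valuation_surjective δ
      constructor
      · intro h
        rw [← map_mul] at h
        by_cases hx : x = 0
        · rw [hx, mul_zero, map_zero] at h
          exact (Valuation.ne_zero_iff _).2 hT h.symm
        · have h2 := order_unit P _ _ (mul_ne_zero hx hx) hT h
          rw [HahnSeries.order_mul hx hx, HahnSeries.order_single one_ne_zero] at h2
          omega
      · intro h
        rw [← map_mul, ← map_mul] at h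
        have hTπ : (HahnSeries.single (1 : ℤ) (1 : L)) * πK ≠ 0 := mul_ne_zero hT hO.1
        by_cases hx : x = 0
        · rw [hx, mul_zero, map_zero] at h
          exact (Valuation.ne_zero_iff _).2 hTπ h.symm
        · have h2 := order_unit P _ _ (mul_ne_zero hx hx) hTπ h
          rw [HahnSeries.order_mul hx hx, HahnSeries.order_mul hT hO.1,
            HahnSeries.order_single one_ne_zero] at h2
          have h3 : (πK : K).order = 0 := HahnSeries.order_C
          rw [h3] at h2
          omega
    have h2 := (sen_iff P πL).1 (hsub h1).2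
    obtain ⟨γ, hγ⟩ := h2
    by_cases hγ0 : γ = 0
    · exact (hγ 0).1 (by rw [hγ0, mul_zero])
    · obtain ⟨m, hm⟩ := hgen γ hγ0
      rcases Int.even_or_odd' m with ⟨j, hj | hj⟩
      · apply (hγ (P.valuation πL ^ j)).1
        rw [hm, hj, two_mul, zpow_add₀ hv0]
      · apply (hγ (P.valuation πL ^ (j + 1))).2
        rw [hm, hj, ← zpow_add₀ hv0, ← zpow_add_one₀ hv0]
        congr 1
        ring

end Pool.Agent.Results.MP_65f174_lc.FragmentsFail
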